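import Mathlib
import Pool.Agent.H86.CMLib.H297R2.Schwarz

namespace Pool.Agent.H297R2

open NumberField Complex Finset

/-- The exponential polynomial `∑ c_x exp(ψ_x z)`. -/
noncomputable def expPoly {Λ : Type*} [Fintype Λ] (c ψ : Λ → ℂ) (z : ℂ) : ℂ :=
  ∑ x, c x * cexp (ψ x * z)

theorem expPoly_hasDerivAt {Λ : Type*} [Fintype Λ] (c ψ : Λ → ℂ) (z : ℂ) :
    HasDerivAt (expPoly c ψ) (expPoly (fun x => c x * ψ x) ψ z) z := by
  unfold expPoly
  apply HasDerivAt.fun_sum
  intro x _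
  have h1 : HasDerivAt (fun z : ℂ => ψ x * z) (ψ x) z := by
    simpa using (hasDerivAt_id z).const_mul (ψ x)
  have h2 := h1.cexp.const_mul (c x)
  rw [show c x * ψ x * cexp (ψ x * z) = c x * (cexp (ψ x * z) * ψ x) by ring]
  exact h2

theorem expPoly_differentiable {Λ : Type*} [Fintype Λ] (c ψ : Λ → ℂ) :
    Differentiable ℂ (expPoly c ψ) := fun z => (expPoly_hasDerivAt c ψ z).differentiableAt

theorem expPoly_iteratedDeriv {Λ : Type*} [Fintype Λ] (ψ : Λ → ℂ) (j : ℕ) :
    ∀ c : Λ → ℂ, iteratedDeriv j (expPoly c ψ) = expPoly (fun x => c x * ψ x ^ j) ψ := by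
  induction j with
  | zero => intro c; simp
  | succ j ih =>
    intro c
    rw [iteratedDeriv_succ']
    have : deriv (expPoly c ψ) = expPoly (fun x => c x * ψ x) ψ := by
      funext z; exact (expPoly_hasDerivAt c ψ z).deriv
    rw [this, ih]
    congr 1
    funext x
    ring

section Step

variable {K : Type*} [Field K] [NumberField K] {Λ ι : Type*} [Fintype Λ] [Fintype ι]

/-- Arithmetic values of the auxiliary function. -/
noncomputable def auxQ (p : Λ → 𝓞 K) (γ : Λ → ι → 𝓞 K) (A : Λ → 𝓞 K) (m : ι → ℕ) (l : ℕ) : 𝓞 K :=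
  ∑ x, p x * (∏ i, γ x i ^ m i) * A x ^ l

theorem one_le_norm_of_ne_zero (x : 𝓞 K) (hx : x ≠ 0) : 1 ≤ ‖Algebra.norm ℚ (x : K)‖ := by
  rw [← Algebra.coe_norm_int]
  have h : Algebra.norm ℤ x ≠ 0 := by rwa [Algebra.norm_ne_zero_iff]
  have h2 : (1 : ℤ) ≤ |Algebra.norm ℤ x| := Int.one_le_abs h
  rw [← Rat.norm_cast_real, Rat.cast_intCast, Real.norm_eq_abs]
  exact_mod_cast h2

theorem liouville (σ : K →+* ℂ) (x : 𝓞 K) (hx : x ≠ 0) (B : ℝ) (hB : house (x : K) ≤ B) :
    1 ≤ ‖σ (x : K)‖ * B ^ (Module.finrank ℚ K - 1) := by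
  refine (one_le_norm_of_ne_zero x hx).trans ((norm_norm_le_norm_mul_house_pow (x : K) σ).trans ?_)
  gcongr
  exact house_nonneg _

variable [DecidableEq ι]

theorem step_deriv (σ : K →+* ℂ) (p : Λ → 𝓞 K) (γ : Λ → ι → 𝓞 K) (A : Λ → 𝓞 K)
    (ω : ι → ℂ) (ψ : Λ → ℂ) (hψ : ∀ x, ψ x = ∑ i, σ (γ x i : K) * ω i) (E : ℂ) (hE : E ≠ 0)
    (hA : ∀ x, σ (A x : K) = E * cexp (ψ x)) (S h : ℕ)
    (hvan : ∀ m : ι → ℕ, ∑ i, m i ≤ S → ∀ l ∈ Icc 1 h, auxQ p γ A m l = 0)
    (r : ℕ) (hr : r ∈ Icc 1 h) (j : ℕ) :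
    ∀ m : ι → ℕ, ∑ i, m i + j ≤ S →
      expPoly (fun x => σ (p x : K) * (∏ i, σ (γ x i : K) ^ m i) * ψ x ^ j) ψ r = 0 := by
  induction j with
  | zero =>
    intro m hm
    have h1 := hvan m (by omega) r hr
    have h2 : σ (auxQ p γ A m r : K) = E ^ r *
        expPoly (fun x => σ (p x : K) * (∏ i, σ (γ x i : K) ^ m i) * ψ x ^ 0) ψ r := by
      unfold auxQ expPoly
      simp only [map_sum, map_mul, map_prod, map_pow, hA]
      rw [Finset.mul_sum]
      apply Finset.sum_congr rfl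
      intro x _
      rw [mul_pow, ← Complex.exp_nat_mul, pow_zero, mul_comm (r : ℂ) (ψ x)]
      ring
    rw [h1] at h2
    simp only [map_zero] at h2
    have h3 := h2.symm
    rcases mul_eq_zero.1 h3 with h4 | h4
    · exact absurd h4 (pow_ne_zero _ hE)
    · exact h4
  | succ j ih =>
    intro m hm
    have key : ∀ x, σ (p x : K) * (∏ i, σ (γ x i : K) ^ m i) * ψ x ^ (j + 1) =
        ∑ k, ω k * (σ (p x : K) * (∏ i, σ (γ x i : K) ^ (m + Pi.single k 1 : ι → ℕ) i) * ψ x ^ j) := by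
      intro x
      have hprod : ∀ k, ∏ i, σ (γ x i : K) ^ (m + Pi.single k 1 : ι → ℕ) i =
          (∏ i, σ (γ x i : K) ^ m i) * σ (γ x k : K) := by
        intro k
        simp only [Pi.add_apply, pow_add, Finset.prod_mul_distrib]
        congr 1
        rw [Finset.prod_eq_single k]
        · simp
        · intro b _ hb
          simp [Pi.single_eq_of_ne hb]
        · simp
      simp only [hprod]
      calc σ (p x : K) * (∏ i, σ (γ x i : K) ^ m i) * ψ x ^ (j + 1)
          = (σ (p x : K) * (∏ i, σ (γ x i : K) ^ m i) * ψ x ^ j) * ∑ i, σ (γ x i : K) * ω i := by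
            rw [← hψ x]; ring
        _ = _ := by
            rw [Finset.mul_sum]
            apply Finset.sum_congr rfl
            intro k _
            ring
    have h5 : expPoly (fun x => σ (p x : K) * (∏ i, σ (γ x i : K) ^ m i) * ψ x ^ (j + 1)) ψ r =
        ∑ k, ω k * expPoly (fun x => σ (p x : K) *
          (∏ i, σ (γ x i : K) ^ (m + Pi.single k 1 : ι → ℕ) i) * ψ x ^ j) ψ r := by
      unfold expPoly
      simp only [key, Finset.mul_sum, Finset.sum_mul]
      rw [Finset.sum_comm]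
      apply Finset.sum_congr rfl
      intro k _
      apply Finset.sum_congr rfl
      intro x _
      ring
    rw [h5]
    apply Finset.sum_eq_zero
    intro k _
    rw [ih (m + Pi.single k 1 : ι → ℕ) (by
      have : ∑ i, (m + Pi.single k 1 : ι → ℕ) i = ∑ i, m i + 1 := by
        simp [Pi.add_apply, Finset.sum_add_distrib]
      rw [this]; omega), mul_zero]

omit [DecidableEq ι] in
theorem house_auxQ_le (p : Λ → 𝓞 K) (γ : Λ → ι → 𝓞 K) (A : Λ → 𝓞 K)
    (N P g H : ℝ) (hN : (Fintype.card Λ : ℝ) ≤ Real.exp N)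
    (hP : ∀ x, house (p x : K) ≤ Real.exp P) (hg0 : 0 ≤ g) (hH0 : 0 ≤ H)
    (hg : ∀ x i, house (γ x i : K) ≤ Real.exp g)
    (hH : ∀ x, house (A x : K) ≤ Real.exp H) (S h' : ℕ) (m : ι → ℕ) (hm : ∑ i, m i ≤ S)
    (l : ℕ) (hl : l ≤ h') :
    house (auxQ p γ A m l : K) ≤ Real.exp (N + P + S * g + h' * H) := by
  have hterm : ∀ x, house ((p x * (∏ i, γ x i ^ m i) * A x ^ l : 𝓞 K) : K) ≤
      Real.exp (P + S * g + h' * H) := by
    intro x
    push_cast
    have h1 : house (∏ i, (γ x i : K) ^ m i) ≤ Real.exp (S * g) := by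
      have h2 : house (∏ i, (γ x i : K) ^ m i) ≤ ∏ i, Real.exp (m i * g) := by
        simp only [house, map_prod]
        refine (Finset.norm_prod_le _ _).trans ?_
        apply Finset.prod_le_prod
        · intro i _; exact norm_nonneg _
        · intro i _
          have h3 := house_pow_le (γ x i : K) (m i)
          rw [Real.exp_nat_mul]
          exact h3.trans (pow_le_pow_left₀ (house_nonneg _) (hg x i) _)
      refine h2.trans ?_
      rw [← Real.exp_sum, ← Finset.sum_mul]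
      apply Real.exp_le_exp.2
      apply mul_le_mul_of_nonneg_right _ hg0
      exact_mod_cast hm
    have h4 : house ((A x : K) ^ l) ≤ Real.exp (h' * H) := by
      refine (house_pow_le _ _).trans ?_
      calc house (A x : K) ^ l ≤ Real.exp H ^ l := pow_le_pow_left₀ (house_nonneg _) (hH x) _
        _ = Real.exp (l * H) := by rw [Real.exp_nat_mul]
        _ ≤ Real.exp (h' * H) := by
            apply Real.exp_le_exp.2
            apply mul_le_mul_of_nonneg_right _ hH0
            exact_mod_cast hl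
    calc house ((p x : K) * (∏ i, (γ x i : K) ^ m i) * (A x : K) ^ l)
        ≤ house ((p x : K) * (∏ i, (γ x i : K) ^ m i)) * house ((A x : K) ^ l) := house_mul_le _ _
      _ ≤ (house (p x : K) * house (∏ i, (γ x i : K) ^ m i)) * house ((A x : K) ^ l) := by
          gcongr
          · exact house_nonneg _
          · exact house_mul_le _ _
      _ ≤ (Real.exp P * Real.exp (S * g)) * Real.exp (h' * H) := by
          gcongr
          · exact house_nonneg _
          · exact house_nonneg _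
          · exact hP x
      _ = Real.exp (P + S * g + h' * H) := by rw [← Real.exp_add, ← Real.exp_add]
  unfold auxQ
  have h5 : ((∑ x, p x * (∏ i, γ x i ^ m i) * A x ^ l : 𝓞 K) : K) =
      ∑ x, ((p x * (∏ i, γ x i ^ m i) * A x ^ l : 𝓞 K) : K) := by
    push_cast; rfl
  rw [h5]
  refine (house_sum_le_sum_house _ _).trans ?_
  calc ∑ x, house ((p x * (∏ i, γ x i ^ m i) * A x ^ l : 𝓞 K) : K)
      ≤ ∑ _x : Λ, Real.exp (P + S * g + h' * H) := Finset.sum_le_sum (fun x _ => hterm x)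
    _ = (Fintype.card Λ : ℝ) * Real.exp (P + S * g + h' * H) := by simp
    _ ≤ Real.exp N * Real.exp (P + S * g + h' * H) := by gcongr
    _ = Real.exp (N + P + S * g + h' * H) := by rw [← Real.exp_add]; ring_nf

theorem step (σ : K →+* ℂ) (p : Λ → 𝓞 K) (γ : Λ → ι → 𝓞 K) (A : Λ → 𝓞 K)
    (ω : ι → ℂ) (ψ : Λ → ℂ) (hψ : ∀ x, ψ x = ∑ i, σ (γ x i : K) * ω i) (E : ℂ) (hE : E ≠ 0)
    (hA : ∀ x, σ (A x : K) = E * cexp (ψ x))
    (N P g H Ψ : ℝ) (hN : (Fintype.card Λ : ℝ) ≤ Real.exp N)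
    (hP : ∀ x, house (p x : K) ≤ Real.exp P) (hg0 : 0 ≤ g) (hH0 : 0 ≤ H) (hΨ0 : 0 ≤ Ψ)
    (hg : ∀ x i, house (γ x i : K) ≤ Real.exp g)
    (hH : ∀ x, house (A x : K) ≤ Real.exp H) (hEH : ‖E‖ ≤ Real.exp H)
    (hΨ : ∀ x, ‖ψ x‖ ≤ Ψ) (S1 S2 h h' : ℕ) (hh : h ≤ h')
    (hvan : ∀ m : ι → ℕ, ∑ i, m i ≤ S1 + S2 → ∀ l ∈ Icc 1 h, auxQ p γ A m l = 0)
    (hnum : (Module.finrank ℚ K : ℝ) * (N + P + S1 * g + h' * H) + 4 * Ψ * h' < h * S2) :
    ∀ m : ι → ℕ, ∑ i, m i ≤ S1 → ∀ l ∈ Icc 1 h', auxQ p γ A m l = 0 := by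
  classical
  intro m hm l hl
  by_contra hQ
  rw [Finset.mem_Icc] at hl
  have hl1 : (1 : ℝ) ≤ l := by exact_mod_cast hl.1
  have hl2 : (l : ℝ) ≤ h' := by exact_mod_cast hl.2
  have hh' : (h : ℝ) ≤ h' := by exact_mod_cast hh
  have hh0 : (0 : ℝ) < h' := by linarith
  set c : Λ → ℂ := fun x => σ (p x : K) * (∏ i, σ (γ x i : K) ^ m i) with hc
  set f := expPoly c ψ with hf
  set X : ℝ := N + P + S1 * g + h' * H with hX
  -- value at l
  have hval : σ (auxQ p γ A m l : K) = E ^ l * f l := by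
    unfold auxQ
    rw [hf, hc]
    unfold expPoly
    simp only [map_sum, map_mul, map_prod, map_pow, hA]
    rw [Finset.mul_sum]
    apply Finset.sum_congr rfl
    intro x _
    rw [mul_pow, ← Complex.exp_nat_mul, mul_comm (l : ℂ) (ψ x)]
    ring
  have hhouse := house_auxQ_le p γ A N P g H hN hP hg0 hH0 hg hH S1 h' m hm l hl.2
  have hL := liouville σ _ hQ _ hhouse
  -- bound of f on the circle
  have hcb : ∀ x, ‖c x‖ ≤ Real.exp (P + S1 * g) := by
    intro x
    rw [hc]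
    simp only [norm_mul, norm_prod, norm_pow]
    have h1 : ‖σ (p x : K)‖ ≤ Real.exp P := (norm_embedding_le_house _ σ).trans (hP x)
    have h2 : ∏ i, ‖σ (γ x i : K)‖ ^ m i ≤ Real.exp (S1 * g) := by
      calc ∏ i, ‖σ (γ x i : K)‖ ^ m i ≤ ∏ i, Real.exp (m i * g) := by
            apply Finset.prod_le_prod
            · intro i _; positivity
            · intro i _
              rw [Real.exp_nat_mul]
              exact pow_le_pow_left₀ (norm_nonneg _)
                ((norm_embedding_le_house _ σ).trans (hg x i)) _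
        _ = Real.exp ((∑ i, (m i : ℝ)) * g) := by rw [← Real.exp_sum, ← Finset.sum_mul]
        _ ≤ Real.exp (S1 * g) := by
            apply Real.exp_le_exp.2
            apply mul_le_mul_of_nonneg_right _ hg0
            exact_mod_cast hm
    calc ‖σ (p x : K)‖ * ∏ i, ‖σ (γ x i : K)‖ ^ m i ≤ Real.exp P * Real.exp (S1 * g) := by
          gcongr
      _ = _ := by rw [← Real.exp_add]
  have hM : ∀ z : ℂ, ‖z‖ = 4 * h' → ‖f z‖ ≤ Real.exp (N + P + S1 * g + 4 * Ψ * h') := by
    intro z hz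
    rw [hf]
    unfold expPoly
    refine (norm_sum_le _ _).trans ?_
    calc ∑ x, ‖c x * cexp (ψ x * z)‖ ≤ ∑ _x : Λ, Real.exp (P + S1 * g) * Real.exp (Ψ * (4 * h')) := by
          apply Finset.sum_le_sum
          intro x _
          rw [norm_mul]
          gcongr
          · exact hcb x
          · rw [Complex.norm_exp]
            apply Real.exp_le_exp.2
            refine (Complex.re_le_norm _).trans ?_
            rw [norm_mul, hz]
            gcongr
            exact hΨ x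
      _ = (Fintype.card Λ : ℝ) * (Real.exp (P + S1 * g) * Real.exp (Ψ * (4 * h'))) := by simp
      _ ≤ Real.exp N * (Real.exp (P + S1 * g) * Real.exp (Ψ * (4 * h'))) := by gcongr
      _ = _ := by rw [← Real.exp_add, ← Real.exp_add]; ring_nf
  -- Schwarz lemma
  set Z : Finset ℂ := (Icc 1 h).image (fun r : ℕ => (r : ℂ)) with hZ
  have hcard : Z.card = h := by
    rw [hZ, Finset.card_image_of_injective _ Nat.cast_injective]
    simp
  have hS := schwarz f (expPoly_differentiable _ _) S2 Z (by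
      intro z hz j hj
      rw [hZ, Finset.mem_image] at hz
      obtain ⟨r, hr, rfl⟩ := hz
      rw [hf, expPoly_iteratedDeriv]
      exact step_deriv σ p γ A ω ψ hψ E hE hA (S1 + S2) h hvan r hr j m (by omega))
    h (4 * h') _ h' (by linarith) (by linarith) (by
      intro z hz
      rw [hZ, Finset.mem_image] at hz
      obtain ⟨r, hr, rfl⟩ := hz
      rw [Finset.mem_Icc] at hr
      simp only [Complex.norm_natCast]
      exact_mod_cast hr.2) (l : ℂ) (by simp only [Complex.norm_natCast]; linarith) (by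
      intro z hz
      rw [hZ, Finset.mem_image] at hz
      obtain ⟨r, hr, rfl⟩ := hz
      rw [Finset.mem_Icc] at hr
      have hr1 : (1 : ℝ) ≤ r := by exact_mod_cast hr.1
      have hr2 : (r : ℝ) ≤ h := by exact_mod_cast hr.2
      have : ((l : ℂ) - (r : ℂ)) = (((l : ℝ) - (r : ℝ) : ℝ) : ℂ) := by push_cast; ring
      rw [this, Complex.norm_real, Real.norm_eq_abs, abs_le]
      constructor <;> linarith) hM
  rw [hcard] at hS
  have h3 : (3 * (h' : ℝ)) ^ (S2 * h) * ‖f l‖ ≤ Real.exp (N + P + S1 * g + 4 * Ψ * h') * (h' : ℝ) ^ (S2 * h) := by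
    refine le_trans ?_ hS
    rw [mul_comm]
    gcongr
    linarith
  rw [mul_pow] at h3
  have h4 : (3 : ℝ) ^ (S2 * h) * ‖f l‖ ≤ Real.exp (N + P + S1 * g + 4 * Ψ * h') := by
    have h5 : 0 < (h' : ℝ) ^ (S2 * h) := by positivity
    have h6 : ((3 : ℝ) ^ (S2 * h) * ‖f l‖) * (h' : ℝ) ^ (S2 * h) ≤
        Real.exp (N + P + S1 * g + 4 * Ψ * h') * (h' : ℝ) ^ (S2 * h) := by
      calc _ = 3 ^ (S2 * h) * (h' : ℝ) ^ (S2 * h) * ‖f l‖ := by ring
        _ ≤ _ := h3
    exact le_of_mul_le_mul_right h6 h5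
  have h7 : Real.exp (h * S2) ≤ (3 : ℝ) ^ (S2 * h) := by
    have : Real.exp 1 ≤ 3 := by
      have := Real.exp_one_lt_d9
      linarith
    calc Real.exp (h * S2) = Real.exp 1 ^ (S2 * h) := by
          rw [← Real.exp_nat_mul]; push_cast; ring_nf
      _ ≤ 3 ^ (S2 * h) := pow_le_pow_left₀ (Real.exp_pos _).le this _
  have h8 : Real.exp (h * S2) * ‖f l‖ ≤ Real.exp (N + P + S1 * g + 4 * Ψ * h') :=
    (mul_le_mul_of_nonneg_right h7 (norm_nonneg _)).trans h4
  have h9 : ‖E ^ l‖ ≤ Real.exp (h' * H) := by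
    rw [norm_pow]
    calc ‖E‖ ^ l ≤ Real.exp H ^ l := pow_le_pow_left₀ (norm_nonneg _) hEH _
      _ = Real.exp (l * H) := by rw [Real.exp_nat_mul]
      _ ≤ Real.exp (h' * H) := by
          apply Real.exp_le_exp.2
          exact mul_le_mul_of_nonneg_right hl2 hH0
  rw [hval, norm_mul, ← Real.exp_nat_mul] at hL
  have hd : 0 < Module.finrank ℚ K := Module.finrank_pos
  have hd' : ((Module.finrank ℚ K - 1 : ℕ) : ℝ) = (Module.finrank ℚ K : ℝ) - 1 := by
    rw [Nat.cast_sub hd]; simp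
  have h10 : Real.exp (h * S2) ≤
      Real.exp (h' * H) * Real.exp (N + P + S1 * g + 4 * Ψ * h') *
        Real.exp (((Module.finrank ℚ K - 1 : ℕ) : ℝ) * X) := by
    calc Real.exp (h * S2) = Real.exp (h * S2) * 1 := by ring
      _ ≤ Real.exp (h * S2) * (‖E ^ l‖ * ‖f l‖ * Real.exp (((Module.finrank ℚ K - 1 : ℕ) : ℝ) * X)) := by
          gcongr
      _ = ‖E ^ l‖ * (Real.exp (h * S2) * ‖f l‖) * Real.exp (((Module.finrank ℚ K - 1 : ℕ) : ℝ) * X) := by ring
      _ ≤ _ := by gcongr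
  rw [← Real.exp_add, ← Real.exp_add, Real.exp_le_exp, hd'] at h10
  have : (h' : ℝ) * H + (N + P + S1 * g + 4 * Ψ * h') + ((Module.finrank ℚ K : ℝ) - 1) * X
      = (Module.finrank ℚ K : ℝ) * X + 4 * Ψ * h' := by
    rw [hX]; ring
  rw [this] at h10
  linarith

end Step

end Pool.Agent.H297R2
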